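import Mathlib

/-!
# The logarithm of a local factor

Owner helper22.
-/

set_option autoImplicit false
set_option linter.unusedVariables false

open Filter Topology Complex Metric

namespace Pool.Agent.KS6_22.NB

/-- `z = a q^{-s} - e q^{1-2s}` -/
noncomputable def zz (q a e : ℝ) (s : ℂ) : ℂ := a * (q : ℂ) ^ (-s) - e * (q : ℂ) ^ (1 - 2 * s)

/-- the logarithm of the local factor -/
noncomputable def lam (q a e : ℝ) (s : ℂ) : ℂ := -log (1 - zz q a e s)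

lemma logT3 (z : ℂ) : logTaylor 3 z = z - z ^ 2 / 2 := by
  simp [logTaylor_succ, logTaylor_zero]
  ring

/-- `x = q^{1/2-σ}` -/
noncomputable def xx (q : ℝ) (s : ℂ) : ℝ := q ^ (1 / 2 - s.re)

section

variable {q a e : ℝ} {s : ℂ}

lemma xx_pos (hq : 1 < q) : 0 < xx q s := Real.rpow_pos_of_pos (by linarith) _

lemma xx_sq (hq : 1 < q) : xx q s ^ 2 = q ^ (1 - 2 * s.re) := by
  unfold xx
  rw [← Real.rpow_natCast, ← Real.rpow_mul (by linarith)]
  congr 1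
  push_cast
  ring

lemma xx_cube (hq : 1 < q) : xx q s ^ 3 = q ^ (3 / 2 - 3 * s.re) := by
  unfold xx
  rw [← Real.rpow_natCast, ← Real.rpow_mul (by linarith)]
  congr 1
  push_cast
  ring

lemma xx_le (hq : 100 ≤ q) (hs : 5 / 6 < s.re) : xx q s ≤ 11 / 50 := by
  have h1 : xx q s ≤ (100 : ℝ) ^ (-(1 / 3) : ℝ) := by
    unfold xx
    calc q ^ (1 / 2 - s.re) ≤ q ^ (-(1 / 3) : ℝ) :=
          Real.rpow_le_rpow_of_exponent_le (by linarith) (by linarith)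
      _ ≤ (100 : ℝ) ^ (-(1 / 3) : ℝ) :=
          Real.rpow_le_rpow_of_nonpos (by norm_num) hq (by norm_num)
  have h2 : ((100 : ℝ) ^ (-(1 / 3) : ℝ)) ^ 3 = 1 / 100 := by
    rw [← Real.rpow_natCast, ← Real.rpow_mul (by norm_num)]
    norm_num
  have h3 : (0 : ℝ) ≤ (100 : ℝ) ^ (-(1 / 3) : ℝ) := by positivity
  have h4 : (100 : ℝ) ^ (-(1 / 3) : ℝ) ≤ 11 / 50 := by
    by_contra h
    rw [not_le] at h
    have := pow_lt_pow_left₀ h (by norm_num) (n := 3) (by norm_num)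
    rw [h2] at this
    norm_num at this
  exact h1.trans h4

lemma norm_A (hq : 1 < q) (ha : |a| ≤ 2 * √q) : ‖(a : ℂ) * (q : ℂ) ^ (-s)‖ ≤ 2 * xx q s := by
  have hq0 : 0 < q := by linarith
  rw [norm_mul, norm_cpow_eq_rpow_re_of_pos hq0, neg_re, norm_real, Real.norm_eq_abs]
  unfold xx
  rw [sub_eq_add_neg, Real.rpow_add hq0, ← Real.sqrt_eq_rpow, ← mul_assoc]
  exact mul_le_mul_of_nonneg_right ha (by positivity)

lemma norm_Bt (hq : 1 < q) (he : |e| ≤ 1) : ‖(e : ℂ) * (q : ℂ) ^ (1 - 2 * s)‖ ≤ xx q s ^ 2 := by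
  have hq0 : 0 < q := by linarith
  rw [norm_mul, norm_cpow_eq_rpow_re_of_pos hq0, norm_real, Real.norm_eq_abs, xx_sq hq]
  have h1 : (1 - 2 * s).re = 1 - 2 * s.re := by simp
  rw [h1]
  have h2 : 0 ≤ q ^ (1 - 2 * s.re) := by positivity
  nlinarith

lemma norm_zz (hq : 100 ≤ q) (hs : 5 / 6 < s.re) (ha : |a| ≤ 2 * √q) (he : |e| ≤ 1) :
    ‖zz q a e s‖ ≤ 9 / 4 * xx q s := by
  have hx := xx_le hq hs
  have hx0 := xx_pos (s := s) (show 1 < q by linarith)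
  unfold zz
  refine (norm_sub_le _ _).trans ?_
  have h1 := norm_A (s := s) (show 1 < q by linarith) ha
  have h2 := norm_Bt (s := s) (show 1 < q by linarith) he
  nlinarith

lemma norm_zz_half (hq : 100 ≤ q) (hs : 5 / 6 < s.re) (ha : |a| ≤ 2 * √q) (he : |e| ≤ 1) :
    ‖zz q a e s‖ ≤ 1 / 2 := by
  have := norm_zz hq hs ha he
  have hx := xx_le hq hs
  linarith

lemma lam_sub_z (hq : 100 ≤ q) (hs : 5 / 6 < s.re) (ha : |a| ≤ 2 * √q) (he : |e| ≤ 1) :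
    ‖lam q a e s - (zz q a e s + zz q a e s ^ 2 / 2)‖ ≤ ‖zz q a e s‖ ^ 3 := by
  set z := zz q a e s with hz
  have h1 := norm_zz_half hq hs ha he
  rw [← hz] at h1
  have h2 := norm_log_sub_logTaylor_le 2 (z := -z) (by rw [norm_neg]; linarith)
  rw [logT3, norm_neg] at h2
  have h3 : lam q a e s - (z + z ^ 2 / 2) = -(log (1 + -z) - (-z - (-z) ^ 2 / 2)) := by
    unfold lam
    rw [← hz, sub_eq_add_neg (1 : ℂ) z]
    ring
  rw [h3, norm_neg]
  refine h2.trans ?_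
  have h4 : (1 - ‖z‖)⁻¹ ≤ 2 := by
    rw [inv_le_comm₀ (by linarith) (by norm_num)]
    linarith
  have h5 : (0 : ℝ) ≤ ‖z‖ ^ 3 := by positivity
  norm_num
  nlinarith

lemma lam_lin (hq : 100 ≤ q) (hs : 5 / 6 < s.re) (ha : |a| ≤ 2 * √q) (he : |e| ≤ 1) :
    ‖lam q a e s - a * (q : ℂ) ^ (-s)‖ ≤ 8 * q ^ (1 - 2 * s.re) := by
  have hq1 : 1 < q := by linarith
  have h1 := lam_sub_z hq hs ha he
  have h2 := norm_zz hq hs ha he
  have h3 := norm_zz_half hq hs ha he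
  have h4 := norm_Bt (s := s) hq1 he
  set z := zz q a e s with hz
  have h5 : lam q a e s - a * (q : ℂ) ^ (-s) = (lam q a e s - (z + z ^ 2 / 2)) + z ^ 2 / 2 -
      e * (q : ℂ) ^ (1 - 2 * s) := by
    have : z = a * (q : ℂ) ^ (-s) - e * (q : ℂ) ^ (1 - 2 * s) := hz
    rw [this]
    ring
  rw [h5, ← xx_sq hq1]
  refine (norm_sub_le _ _).trans ?_
  have h6 := norm_add_le (lam q a e s - (z + z ^ 2 / 2)) (z ^ 2 / 2)
  have h7 : ‖z ^ 2 / 2‖ = ‖z‖ ^ 2 / 2 := by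
    rw [norm_div, norm_pow, Complex.norm_ofNat]
  rw [h7] at h6
  have hz0 := norm_nonneg z
  have hx0 := xx_pos (s := s) hq1
  have h8 : ‖z‖ ^ 3 ≤ ‖z‖ ^ 2 / 2 := by nlinarith [sq_nonneg ‖z‖]
  have h9 : ‖z‖ ^ 2 ≤ (9 / 4 * xx q s) ^ 2 := pow_le_pow_left₀ hz0 h2 2
  nlinarith

lemma lam_le (hq : 100 ≤ q) (hs : 5 / 6 < s.re) (ha : |a| ≤ 2 * √q) (he : |e| ≤ 1) :
    ‖lam q a e s‖ ≤ 4 * q ^ (1 / 2 - s.re) := by
  have hq1 : 1 < q := by linarith
  have h1 := lam_lin hq hs ha he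
  have h2 := norm_A (s := s) hq1 ha
  have h3 := norm_add_le (lam q a e s - a * (q : ℂ) ^ (-s)) (a * (q : ℂ) ^ (-s))
  rw [sub_add_cancel] at h3
  rw [← xx_sq hq1] at h1
  have hx := xx_le hq hs
  have hx0 := xx_pos (s := s) hq1
  change _ ≤ 4 * xx q s
  nlinarith

lemma lam_odd (hq : 100 ≤ q) (hs : 5 / 6 < s.re) (ha : |a| ≤ 2 * √q) (he : |e| ≤ 1) :
    ‖lam q a e s - lam q (-a) e s - 2 * (a * (q : ℂ) ^ (-s))‖ ≤ 27 * q ^ (3 / 2 - 3 * s.re) := by
  have hq1 : 1 < q := by linarith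
  have ha' : |(-a)| ≤ 2 * √q := by rwa [abs_neg]
  have h1 := lam_sub_z hq hs ha he
  have h1' := lam_sub_z hq hs ha' he
  have h2 := norm_zz hq hs ha he
  have h2' := norm_zz hq hs ha' he
  have hA := norm_A (s := s) hq1 ha
  have hB := norm_Bt (s := s) hq1 he
  set z := zz q a e s with hz
  set z' := zz q (-a) e s with hz'
  set A := (a : ℂ) * (q : ℂ) ^ (-s) with hAd
  set B := (e : ℂ) * (q : ℂ) ^ (1 - 2 * s) with hBd
  have hzA : z = A - B := hz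
  have hzA' : z' = -A - B := by
    rw [hz', zz, hAd, hBd]
    push_cast
    ring
  have h5 : lam q a e s - lam q (-a) e s - 2 * A = (lam q a e s - (z + z ^ 2 / 2)) -
      (lam q (-a) e s - (z' + z' ^ 2 / 2)) - 2 * (A * B) := by
    rw [hzA, hzA']
    ring
  rw [h5, ← xx_cube hq1]
  have h6 := norm_sub_le ((lam q a e s - (z + z ^ 2 / 2)) -
      (lam q (-a) e s - (z' + z' ^ 2 / 2))) (2 * (A * B))
  have h7 := norm_sub_le (lam q a e s - (z + z ^ 2 / 2)) (lam q (-a) e s - (z' + z' ^ 2 / 2))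
  have h8 : ‖2 * (A * B)‖ ≤ 4 * xx q s ^ 3 := by
    rw [norm_mul, norm_mul, Complex.norm_ofNat]
    have := mul_le_mul hA hB (norm_nonneg _) (by have := xx_pos (s := s) hq1; positivity)
    nlinarith
  have hx0 := xx_pos (s := s) hq1
  have h9 : ‖z‖ ^ 3 ≤ (9 / 4 * xx q s) ^ 3 := pow_le_pow_left₀ (norm_nonneg _) h2 3
  have h9' : ‖z'‖ ^ 3 ≤ (9 / 4 * xx q s) ^ 3 := pow_le_pow_left₀ (norm_nonneg _) h2' 3
  have h10 : (9 / 4 * xx q s) ^ 3 = 729 / 64 * xx q s ^ 3 := by ring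
  have h11 : 0 ≤ xx q s ^ 3 := by positivity
  rw [h10] at h9 h9'
  linarith

lemma zz_diff (hq : 1 < q) : Differentiable ℂ (zz q a e) := by
  have h : (q : ℂ) ≠ 0 := by
    have : q ≠ 0 := by linarith
    exact_mod_cast this
  intro s
  unfold zz
  refine DifferentiableAt.sub ?_ ?_
  · exact (differentiableAt_const _).mul ((differentiable_id.neg s).const_cpow (Or.inl h))
  · refine (differentiableAt_const _).mul (DifferentiableAt.const_cpow ?_ (Or.inl h))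
    fun_prop

lemma one_sub_mem {z : ℂ} (hz : ‖z‖ ≤ 1 / 2) : 1 - z ∈ slitPlane := by
  left
  have h1 := abs_re_le_norm z
  have h2 := le_abs_self z.re
  rw [sub_re, one_re]
  linarith

lemma lam_diff (hq : 100 ≤ q) (ha : |a| ≤ 2 * √q) (he : |e| ≤ 1) :
    DifferentiableOn ℂ (lam q a e) {s | 5 / 6 < s.re} := by
  intro s hs
  refine DifferentiableAt.differentiableWithinAt ?_
  unfold lam
  refine DifferentiableAt.neg (DifferentiableAt.clog ?_ (one_sub_mem (norm_zz_half hq hs ha he)))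
  exact (differentiableAt_const _).sub (zz_diff (by linarith) s)

lemma exp_lam (hq : 100 ≤ q) (hs : 5 / 6 < s.re) (ha : |a| ≤ 2 * √q) (he : |e| ≤ 1) :
    exp (lam q a e s) = (1 - a * (q : ℂ) ^ (-s) + e * (q : ℂ) ^ (1 - 2 * s))⁻¹ := by
  unfold lam
  have h1 : 1 - zz q a e s ≠ 0 :=
    slitPlane_ne_zero (one_sub_mem (norm_zz_half hq hs ha he))
  rw [exp_neg, exp_log h1]
  congr 1
  unfold zz
  ring

end

end Pool.Agent.KS6_22.NB
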