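import Pool.Graph.R_pool_sql_team_seeded_47a924f7.T6.H9.MV.Place
import Pool.Graph.R_seed8.H921R2.TatePole.Base
import Pool.Agent.KS6_22.NB.Lam

/-!
# Reductions of elliptic curves and finite extensions

Owner helper22.
-/

set_option autoImplicit false
set_option linter.unusedVariables false
set_option linter.unusedSectionVars false

open NumberField IsDedekindDomain
open Pool.Agent.H921R2.TatePole (nm two_le_nm nm_summable prime_sum_bdd below nm_eq fiber_finite
  card_above)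
open Pool.Agent.T6.H9.MV (kv qv trv epv Sab Sab_twist Sab_bound Sab_sing card_pts good_v six_ne
  ringChar_ne two_ne three_ne card_kv card_kv')

namespace Pool.Agent.KS6_22.NB

variable {K : Type} [Field K] [NumberField K] {L : Type} [Field L] [NumberField L] [Algebra K L]

open Classical in
/-- the map of the residue fields, `0` if `w` does not lie above `v` -/
noncomputable def rm (v : HeightOneSpectrum (𝓞 K)) (w : HeightOneSpectrum (𝓞 L)) (x : kv v) : kv w :=
  if h : v.asIdeal ≤ w.asIdeal.comap (algebraMap (𝓞 K) (𝓞 L)) then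
    Ideal.quotientMap w.asIdeal (algebraMap (𝓞 K) (𝓞 L)) h x else 0

/-- `w` lies above `v` -/
def Ab (v : HeightOneSpectrum (𝓞 K)) (w : HeightOneSpectrum (𝓞 L)) : Prop := w.under (𝓞 K) = v

lemma Ab.le {v : HeightOneSpectrum (𝓞 K)} {w : HeightOneSpectrum (𝓞 L)} (h : Ab v w) :
    v.asIdeal ≤ w.asIdeal.comap (algebraMap (𝓞 K) (𝓞 L)) := by
  rw [← h]
  exact le_rfl

lemma Ab.mem_iff {v : HeightOneSpectrum (𝓞 K)} {w : HeightOneSpectrum (𝓞 L)} (h : Ab v w) (x : 𝓞 K) :
    x ∈ v.asIdeal ↔ algebraMap (𝓞 K) (𝓞 L) x ∈ w.asIdeal := by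
  rw [← h]
  exact Ideal.mem_comap

/-- the ring homomorphism of the residue fields -/
noncomputable def rh' {v : HeightOneSpectrum (𝓞 K)} {w : HeightOneSpectrum (𝓞 L)} (h : Ab v w) :
    kv v →+* kv w := Ideal.quotientMap w.asIdeal (algebraMap (𝓞 K) (𝓞 L)) h.le

lemma rm_eq {v : HeightOneSpectrum (𝓞 K)} {w : HeightOneSpectrum (𝓞 L)} (h : Ab v w) (x : kv v) :
    rm v w x = rh' h x := by
  unfold rm rh'
  rw [dif_pos h.le]

lemma rh_inj {v : HeightOneSpectrum (𝓞 K)} {w : HeightOneSpectrum (𝓞 L)} (h : Ab v w) :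
    Function.Injective (rh' h) := by
  haveI := v.isMaximal
  letI : Field (kv v) := Ideal.Quotient.field v.asIdeal
  haveI := w.isMaximal
  haveI : Nontrivial (kv w) := Ideal.Quotient.nontrivial_iff.2 w.isPrime.ne_top
  exact RingHom.injective _

lemma six_mem {v : HeightOneSpectrum (𝓞 K)} {w : HeightOneSpectrum (𝓞 L)} (h : Ab v w) :
    (6 : 𝓞 K) ∈ v.asIdeal ↔ (6 : 𝓞 L) ∈ w.asIdeal := by
  rw [h.mem_iff, map_ofNat]

lemma finite_kv (v : HeightOneSpectrum (𝓞 K)) : Finite (kv v) := by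
  have := card_kv v
  have h2 := two_le_nm v
  have h3 : Nat.card (kv v) ≠ 0 := by
    rw [this]
    change nm v ≠ 0
    omega
  exact (Nat.card_ne_zero.1 h3).2

/-- `N w = (N v)^f` -/
lemma exists_f {v : HeightOneSpectrum (𝓞 K)} {w : HeightOneSpectrum (𝓞 L)} (h : Ab v w) :
    ∃ f : ℕ, 0 < f ∧ nm w = nm v ^ f := by
  haveI := v.isMaximal
  letI : Field (kv v) := Ideal.Quotient.field v.asIdeal
  letI : Algebra (kv v) (kv w) := (rh' h).toAlgebra
  haveI : Fintype (kv v) := Fintype.ofFinite _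
  haveI : Fintype (kv w) := Fintype.ofFinite _
  have h1 := Module.card_eq_pow_finrank (K := kv v) (V := kv w)
  have h2 : Fintype.card (kv w) = nm w := by
    rw [← Nat.card_eq_fintype_card, card_kv]
    rfl
  have h3 : Fintype.card (kv v) = nm v := by
    rw [← Nat.card_eq_fintype_card, card_kv]
    rfl
  rw [h2, h3] at h1
  refine ⟨_, ?_, h1⟩
  rw [Nat.pos_iff_ne_zero]
  intro h0
  rw [h0, pow_zero] at h1
  have := two_le_nm w
  omega

lemma nm_le {v : HeightOneSpectrum (𝓞 K)} {w : HeightOneSpectrum (𝓞 L)} (h : Ab v w) :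
    nm v ≤ nm w := by
  obtain ⟨f, hf, h1⟩ := exists_f h
  rw [h1]
  exact Nat.le_self_pow hf.ne' _

lemma below_eq {v : HeightOneSpectrum (𝓞 K)} {w : HeightOneSpectrum (𝓞 L)} (h : Ab v w) :
    below w = below v := by
  obtain ⟨f, hf, h1⟩ := exists_f h
  apply Subtype.ext
  change (nm w).minFac = (nm v).minFac
  rw [h1, Nat.pow_minFac hf.ne']

lemma fib_finite (v : HeightOneSpectrum (𝓞 K)) : {w : HeightOneSpectrum (𝓞 L) | Ab v w}.Finite := by
  have h1 := fiber_finite (K := L) (below v)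
  have h2 : {w : HeightOneSpectrum (𝓞 L) | below w = below v}.Finite := h1
  exact h2.subset fun w hw => below_eq hw

variable (L) in
/-- the primes above `v` -/
noncomputable def fib (v : HeightOneSpectrum (𝓞 K)) : Finset (HeightOneSpectrum (𝓞 L)) :=
  (fib_finite v).toFinset

lemma mem_fib {v : HeightOneSpectrum (𝓞 K)} {w : HeightOneSpectrum (𝓞 L)} :
    w ∈ fib L v ↔ Ab v w := by
  unfold fib
  rw [Set.Finite.mem_toFinset]
  rfl

lemma card_fib (v : HeightOneSpectrum (𝓞 K)) : (fib L v).card ≤ Module.finrank ℚ L :=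
  card_above (below v) _ fun w hw => below_eq (mem_fib.1 hw)

/-! ### the local data -/

lemma trv_bound {w : HeightOneSpectrum (𝓞 L)} (h6 : (6 : 𝓞 L) ∉ w.asIdeal) (y : kv w × kv w) :
    |trv w y| ≤ 2 * √(nm w : ℝ) := (good_v h6).bound y

lemma epv_le (w : HeightOneSpectrum (𝓞 L)) (y : kv w × kv w) : |epv w y| ≤ 1 := by
  unfold epv
  split_ifs <;> simp

/-- the reduction of the curve over `L` -/
noncomputable def rx (v : HeightOneSpectrum (𝓞 K)) (w : HeightOneSpectrum (𝓞 L)) (x : kv v × kv v) :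
    kv w × kv w := (rm v w x.1, rm v w x.2)

/-- the twist by `u` -/
def twu {v : HeightOneSpectrum (𝓞 K)} (u : kv v) (x : kv v × kv v) : kv v × kv v :=
  (u ^ 2 * x.1, u ^ 3 * x.2)

lemma rx_twu {v : HeightOneSpectrum (𝓞 K)} {w : HeightOneSpectrum (𝓞 L)} (h : Ab v w) (u : kv v)
    (x : kv v × kv v) : rx v w (twu u x) = twu (rm v w u) (rx v w x) := by
  unfold rx twu
  simp only [rm_eq h, map_mul, map_pow]

open Classical in
/-- the trace of a twist -/
lemma trv_twu {w : HeightOneSpectrum (𝓞 L)} (h6 : (6 : 𝓞 L) ∉ w.asIdeal) {u : kv w} (hu : u ≠ 0)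
    (y : kv w × kv w) :
    (IsSquare u → trv w (twu u y) = trv w y) ∧ (¬ IsSquare u → trv w (twu u y) = - trv w y) := by
  haveI := w.isMaximal
  letI : Field (kv w) := Ideal.Quotient.field w.asIdeal
  have key : ∀ z : kv w × kv w, trv w z = -(Sab z.1 z.2 : ℝ) := by
    intro z
    have h2 := card_pts (k := kv w) (six_ne h6) z.1 z.2
    rw [card_kv'] at h2
    have h3 : (Nat.card {P : kv w × kv w // P.2 ^ 2 = P.1 ^ 3 + z.1 * P.1 + z.2} : ℝ) =
        (qv w : ℝ) + (Sab z.1 z.2 : ℝ) := by exact_mod_cast h2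
    unfold trv
    change (qv w : ℝ) - (Nat.card {P : kv w × kv w // P.2 ^ 2 = P.1 ^ 3 + z.1 * P.1 + z.2} : ℝ) = _
    rw [h3]
    ring
  have ht : Sab (u ^ 2 * y.1) (u ^ 3 * y.2) = quadraticChar (kv w) u * Sab y.1 y.2 :=
    Sab_twist hu y.1 y.2
  have h4 : trv w (twu u y) = -((quadraticChar (kv w) u * Sab y.1 y.2 : ℤ) : ℝ) := by
    rw [key]
    congr 2
  rw [h4, key]
  constructor
  · intro hsq
    have h5 : quadraticChar (kv w) u = 1 := (quadraticChar_one_iff_isSquare hu).2 hsq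
    rw [h5, one_mul]
  · intro hsq
    have h5 : quadraticChar (kv w) u = -1 := quadraticChar_neg_one_iff_not_isSquare.2 hsq
    rw [h5]
    push_cast
    ring

lemma epv_twu {w : HeightOneSpectrum (𝓞 L)} {u : kv w} (hu : u ≠ 0) (y : kv w × kv w) :
    epv w (twu u y) = epv w y := by
  haveI := w.isMaximal
  letI : Field (kv w) := Ideal.Quotient.field w.asIdeal
  unfold epv twu
  have h1 : 4 * (u ^ 2 * y.1) ^ 3 + 27 * (u ^ 3 * y.2) ^ 2 =
      u ^ 6 * (4 * y.1 ^ 3 + 27 * y.2 ^ 2) := by ring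
  have h2 : u ^ 6 * (4 * y.1 ^ 3 + 27 * y.2 ^ 2) = 0 ↔ 4 * y.1 ^ 3 + 27 * y.2 ^ 2 = 0 := by
    rw [mul_eq_zero]
    exact or_iff_right (pow_ne_zero _ hu)
  simp only
  rw [h1]
  by_cases h : 4 * y.1 ^ 3 + 27 * y.2 ^ 2 = 0
  · rw [if_pos (h2.2 h), if_pos h]
  · rw [if_neg fun h' => h (h2.1 h'), if_neg h]

/-- residue degree one: the residue map is bijective -/
lemma rh_bij {v : HeightOneSpectrum (𝓞 K)} {w : HeightOneSpectrum (𝓞 L)} (h : Ab v w)
    (h1 : nm w = nm v) : Function.Bijective (rh' h) := by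
  have := finite_kv w
  refine (rh_inj h).bijective_of_nat_card_le ?_
  rw [card_kv, card_kv]
  exact h1.le

lemma trv_deg_one {v : HeightOneSpectrum (𝓞 K)} {w : HeightOneSpectrum (𝓞 L)} (h : Ab v w)
    (h1 : nm w = nm v) (x : kv v × kv v) : trv w (rx v w x) = trv v x := by
  have hb := rh_bij h h1
  let e := RingEquiv.ofBijective (rh' h) hb
  unfold trv
  have hq : (qv w : ℝ) = qv v := by exact_mod_cast h1
  rw [hq]
  congr 2
  symm
  refine Nat.card_congr ((e.toEquiv.prodCongr e.toEquiv).subtypeEquiv fun P => ?_)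
  unfold rx
  simp only [rm_eq h]
  change _ ↔ (rh' h P.2) ^ 2 = (rh' h P.1) ^ 3 + rh' h x.1 * rh' h P.1 + rh' h x.2
  rw [← map_pow, ← map_pow, ← map_mul, ← map_add, ← map_add]
  exact (rh_inj h).eq_iff.symm

lemma not_square {v : HeightOneSpectrum (𝓞 K)} {w : HeightOneSpectrum (𝓞 L)} (h : Ab v w)
    (h1 : nm w = nm v) {u : kv v} (hu : ¬ IsSquare u) : ¬ IsSquare (rm v w u) := by
  rintro ⟨r, hr⟩
  obtain ⟨r', hr'⟩ := (rh_bij h h1).2 r
  apply hu
  refine ⟨r', rh_inj h ?_⟩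
  rw [← rm_eq h, hr, map_mul, hr']

lemma is_square {v : HeightOneSpectrum (𝓞 K)} {w : HeightOneSpectrum (𝓞 L)} (h : Ab v w)
    (h6 : (6 : 𝓞 K) ∉ v.asIdeal) (h1 : nm w = nm v ^ 2) {u : kv v} (hu : u ≠ 0) :
    IsSquare (rm v w u) := by
  classical
  haveI := v.isMaximal
  letI : Field (kv v) := Ideal.Quotient.field v.asIdeal
  haveI := w.isMaximal
  letI : Field (kv w) := Ideal.Quotient.field w.asIdeal
  have h6w : (6 : 𝓞 L) ∉ w.asIdeal := fun h' => h6 ((six_mem h).2 h')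
  have hcw : ringChar (kv w) ≠ 2 := ringChar_ne (six_ne h6w)
  have hcv : ringChar (kv v) ≠ 2 := ringChar_ne (six_ne h6)
  have hne : rm v w u ≠ 0 := by
    rw [rm_eq h]
    intro h0
    exact hu (rh_inj h (by rw [h0, map_zero]))
  rw [FiniteField.isSquare_iff hcw hne]
  have hcardv : Fintype.card (kv v) = nm v := card_kv' v
  have hcardw : Fintype.card (kv w) = nm v ^ 2 := by
    rw [card_kv', ← h1]
    rfl
  have hodd : Odd (nm v) := by
    rw [← hcardv]
    exact Nat.odd_iff.2 (FiniteField.odd_card_of_char_ne_two hcv)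
  obtain ⟨m, hm⟩ := hodd
  have h2 : Fintype.card (kv w) / 2 = (nm v - 1) * (m + 1) := by
    rw [hcardw, hm]
    have : (2 * m + 1) ^ 2 = 2 * ((2 * m) * (m + 1)) + 1 := by ring
    rw [this, Nat.add_sub_cancel]
    omega
  rw [h2, pow_mul, rm_eq h, ← map_pow, ← hcardv, FiniteField.pow_card_sub_one_eq_one u hu, map_one,
    one_pow]

end Pool.Agent.KS6_22.NB
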